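import Pool.Agent.W554.RO.Ind
import Pool.Agent.W932.RO.Stm

/-! # RO-LB -/

set_option autoImplicit false

namespace Pool.Agent.W554.RO

open Finset H568R2 Pool.Agent.H676 Pool.Agent.H620R2.Gauge Pool.Agent.NPC
open Pool.Agent.H591R3.PHG Pool.Agent.W932.RO

theorem unif_eq : unif = ber (1 / 2) := by
  funext b
  unfold unif ber
  cases b <;> norm_num

theorem agr_eq (as : List ℕ) (w : ℕ) (f : (Idx Unit (w :: pw as) → Bool) → Bool) :
    agr as w f = Ag (1 / 2) (w :: pw as) (fun _ => none) f := by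
  unfold agr Ag tv
  rw [unif_eq]
  rfl

theorem err_le {t m r : ℕ} (h : (t + 1) * (2 * m + 2) + 20 ≤ r) :
    (t : ℝ) * (2 ^ (0 + (t + 1) * (2 * m + 1) + 2) * (1 / 2) ^ (r + 1)) ≤ 1 / 2048 := by
  have h1 : (t : ℝ) ≤ 2 ^ t := by exact_mod_cast (Nat.lt_two_pow_self (n := t)).le
  have h2 : (t : ℝ) * (2 ^ (0 + (t + 1) * (2 * m + 1) + 2) * (1 / 2) ^ (r + 1)) ≤
      2 ^ t * (2 ^ (0 + (t + 1) * (2 * m + 1) + 2) * (1 / 2) ^ (r + 1)) :=
    mul_le_mul_of_nonneg_right h1 (by positivity)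
  refine h2.trans ?_
  rw [one_div_pow, ← mul_assoc, ← pow_add, mul_one_div,
    div_le_div_iff₀ (by positivity) (by norm_num)]
  rw [one_mul, show (2048 : ℝ) = 2 ^ 11 by norm_num, ← pow_add]
  apply pow_le_pow_right₀ (by norm_num)
  nlinarith

theorem main : StmLB := by
  classical
  intro n u t m as hn hu hS hr F hF
  obtain ⟨hlen, -, hW⟩ := hS
  have hD : 16 * 2 ^ (2 * u) ≤ 2 ^ (4 * n) := by
    calc 16 * 2 ^ (2 * u) = 2 ^ (4 + 2 * u) := by rw [pow_add]; norm_num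
      _ ≤ 2 ^ (4 * n) := Nat.pow_le_pow_right (by norm_num) (by omega)
  have hcs : (pw as).length = t + 1 := by
    rw [pw, List.length_map, hlen]
  have h1 := leaf hn hu le_rfl hD t (pw as) hcs m 0 F
    (fun y hy => hF y (by simpa using hy)) [] (by simp)
  have h2 := hW (2 ^ (2 * u)) hD
  have h3 := err_le hr
  rw [agr_eq]
  linarith

end Pool.Agent.W554.RO
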