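import Pool.Agent.H591R3.PHG.Stage
import Pool.Agent.H591R3.PHG.Peel

/-! # RO-LB: the last level -/

set_option autoImplicit false

namespace Pool.Agent.W554.RO

open Finset H568R2 Pool.Agent.H676 Pool.Agent.H620R2.Gauge Pool.Agent.NPC
open Pool.Agent.H591R3.PHG

theorem bnn {t : ℝ} (h0 : 0 ≤ t) (h1 : t ≤ 1) (b : Bool) : 0 ≤ ber t b := by
  unfold ber
  split_ifs <;> linarith

open Classical in
/-- the probability that all the bits in a set are false -/
theorem Ex_false_on {I : Type} [Fintype I] [DecidableEq I] (t : ℝ) (S : Finset I) :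
    Ex (ber t) (fun z : I → Bool => if ∀ i ∈ S, z i = false then (1 : ℝ) else 0) =
      (1 - t) ^ S.card := by
  unfold Ex
  have h1 : ∀ P : I → Bool, (∏ i, ber t (P i)) *
      (if ∀ i ∈ S, P i = false then (1 : ℝ) else 0) =
      ∏ i, (ber t (P i) * (if i ∈ S → P i = false then (1 : ℝ) else 0)) := by
    intro P
    rw [Finset.prod_mul_distrib, Finset.prod_ite_zero]
    simp
  simp only [h1]
  have h0 := Finset.prod_univ_sum (fun _ : I => (univ : Finset Bool))
    (fun i b => ber t b * (if i ∈ S → b = false then (1 : ℝ) else 0))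
  rw [Fintype.piFinset_univ] at h0
  rw [← h0]
  have h2 : ∀ i, ∑ b ∈ (univ : Finset Bool), ber t b *
      (if i ∈ S → b = false then (1 : ℝ) else 0) = if i ∈ S then 1 - t else 1 := by
    intro i
    by_cases hi : i ∈ S
    · rw [Fintype.sum_bool]
      simp [ber, hi]
    · rw [Fintype.sum_bool]
      simp [ber, hi]
  rw [Finset.prod_congr rfl (fun i _ => h2 i), Finset.prod_ite, prod_const, prod_const_one,
    mul_one]
  congr 2
  ext i
  simp

open Classical in
/-- the last level -/
theorem base {c r D : ℕ} {t : ℝ} (ht : 0 ≤ t) (ht1 : t ≤ 1) (hrD : r ≤ D)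
    (hDt : (D : ℝ) * t ≤ 1 / 2) (s : Unit × Fin c → Option Bool)
    (hG : Good t (1 / 256) D (fun i => s ((), i))) (f : (Unit × Fin c → Bool) → Bool)
    (hf : Cert r true f)
    (hd : ∀ z z' : Unit × Fin c → Bool, (∀ i, s i = none → z i = z' i) → f z = f z') :
    Ex (ber t) (fun z : Unit × Fin c → Bool =>
      if f z = decide (∀ i : Fin c, val s z ((), i) = false) then (1 : ℝ) else 0) ≤
      1 - 1 / 512 := by
  obtain ⟨hU, hDl, hc1, hc2⟩ := hG
  set L : Finset (Unit × Fin c) := univ.filter (fun i => s i = none) with hL
  have hLc : L.card = (live (fun i => s ((), i))).card := by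
    rw [hL, live]
    refine Finset.card_bij (fun a _ => a.2) ?_ ?_ ?_
    · intro a ha
      rw [mem_filter] at ha ⊢
      exact ⟨mem_univ _, ha.2⟩
    · intro a _ b _ hab
      exact Prod.ext rfl hab
    · intro b hb
      rw [mem_filter] at hb
      exact ⟨((), b), by rw [mem_filter]; exact ⟨mem_univ _, hb.2⟩, rfl⟩
  have hTr : ∀ z : Unit × Fin c → Bool,
      (∀ i : Fin c, val s z ((), i) = false) ↔ ∀ i ∈ L, z i = false := by
    intro z
    constructor
    · intro h i hi
      rw [hL, mem_filter] at hi
      have := h i.2
      unfold Pool.Agent.H591R3.PHG.val at this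
      rw [show ((), i.2) = i from rfl, hi.2] at this
      exact this
    · intro h i
      unfold Pool.Agent.H591R3.PHG.val
      rcases h4 : s ((), i) with _ | _ | _
      · exact h ((), i) (by rw [hL, mem_filter]; exact ⟨mem_univ _, h4⟩)
      · rfl
      · exact absurd h4 (hU i)
  by_cases h0 : f (fun _ => false) = true
  · obtain ⟨A, hA, hAf⟩ := hf _ h0
    have hpt : ∀ z : Unit × Fin c → Bool,
        (if f z = decide (∀ i : Fin c, val s z ((), i) = false) then (1 : ℝ) else 0) +
        (if ∀ i ∈ A, z i = false then (1 : ℝ) else 0) ≤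
        1 + (if ∀ i ∈ A ∪ L, z i = false then (1 : ℝ) else 0) := by
      intro z
      by_cases h1 : ∀ i ∈ A, z i = false
      · have h2 : f z = true := hAf z h1
        by_cases h3 : ∀ i ∈ L, z i = false
        · have h4 : ∀ i ∈ A ∪ L, z i = false := by
            intro i hi
            rcases mem_union.1 hi with h | h
            · exact h1 i h
            · exact h3 i h
          rw [if_pos h4, if_pos h1]
          split_ifs <;> norm_num
        · have h4 : ¬ ∀ i ∈ A ∪ L, z i = false := fun h => h3 fun i hi =>
            h i (mem_union_right _ hi)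
          have h5 : ¬ (f z = decide (∀ i : Fin c, val s z ((), i) = false)) := by
            rw [h2]
            intro h
            have := of_decide_eq_true h.symm
            exact h3 ((hTr z).1 this)
          rw [if_neg h4, if_pos h1, if_neg h5]
          norm_num
      · have h4 : ¬ ∀ i ∈ A ∪ L, z i = false := fun h => h1 fun i hi =>
            h i (mem_union_left _ hi)
        rw [if_neg h4, if_neg h1]
        split_ifs <;> norm_num
    have h1 := Ex_mono (w := ber t) (bnn ht ht1) hpt
    rw [Ex_add, Ex_add, Ex_false_on, Ex_false_on, Ex_const (by simp [ber])] at h1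
    have h2 : (A ∪ L).card = A.card + (L \ A).card := by
      rw [← card_union_of_disjoint disjoint_sdiff, union_sdiff_self_eq_union]
    have h3 : L.card - D ≤ (L \ A).card := by
      have := le_card_sdiff A L
      omega
    have h4 : (1 - t) ^ (L \ A).card ≤ 1 - 1 / 256 := by
      refine le_trans ?_ hc2
      rw [← hLc]
      exact pow_le_pow_of_le_one (by linarith) (by linarith) h3
    have h5 : 1 / 2 ≤ (1 - t) ^ A.card := by
      have h6 : (1 - t) ^ D ≤ (1 - t) ^ A.card :=
        pow_le_pow_of_le_one (by linarith) (by linarith) (by omega)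
      have h7 := one_add_mul_le_pow (a := -t) (by linarith) D
      have h8 : (1 + -t) = 1 - t := by ring
      rw [h8] at h7
      linarith
    rw [h2, pow_add] at h1
    nlinarith
  · have hpt : ∀ z : Unit × Fin c → Bool,
        (if f z = decide (∀ i : Fin c, val s z ((), i) = false) then (1 : ℝ) else 0) +
        (if ∀ i ∈ L, z i = false then (1 : ℝ) else 0) ≤ 1 := by
      intro z
      by_cases h3 : ∀ i ∈ L, z i = false
      · have h5 : f z = false := by
          rw [hd z (fun _ => false) (fun i hi => h3 i (by
            rw [hL, mem_filter]; exact ⟨mem_univ _, hi⟩))]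
          simpa using h0
        have h6 : ¬ (f z = decide (∀ i : Fin c, val s z ((), i) = false)) := by
          rw [h5]
          intro h
          exact of_decide_eq_false h.symm ((hTr z).2 h3)
        rw [if_pos h3, if_neg h6]
        norm_num
      · rw [if_neg h3]
        split_ifs <;> norm_num
    have h1 := Ex_mono (w := ber t) (bnn ht ht1) hpt
    rw [Ex_add, Ex_false_on, Ex_const (by simp [ber]), hLc] at h1
    linarith

end Pool.Agent.W554.RO
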