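import Pool.Agent.W554.RO.Base
import Pool.Agent.H591R3.PHG.Main

/-! # RO-LB: the induction -/

set_option autoImplicit false

namespace Pool.Agent.W554.RO

open Finset H568R2 Pool.Agent.H676 Pool.Agent.H620R2.Gauge Pool.Agent.NPC
open Pool.Agent.H591R3.PHG

open Classical in
/-- the probability that the function agrees with the value at the root -/
noncomputable def Ag (t : ℝ) (cs : List ℕ) (s : Idx Unit cs → Option Bool)
    (f : (Idx Unit cs → Bool) → Bool) : ℝ :=
  Ex (ber t) (fun z : Idx Unit cs → Bool => if f z = Tr cs (val s z) () then (1 : ℝ) else 0)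

theorem Ag_le_one {t : ℝ} (h0 : 0 ≤ t) (h1 : t ≤ 1) (cs : List ℕ) (s : Idx Unit cs → Option Bool)
    (f : (Idx Unit cs → Bool) → Bool) : Ag t cs s f ≤ 1 := by
  classical
  unfold Ag
  refine (Ex_mono (G := fun _ => (1 : ℝ)) (ber_nonneg_m h0 h1) fun z => ?_).trans
    (le_of_eq (Ex_const (ber_sum_m t) 1))
  split_ifs <;> norm_num

theorem Ag_stage {c smin : ℕ} {t t' ξ : ℝ} (ht : 0 < t)
    (ht1 : t < 1) (ht' : 0 < t') (hs : 1 ≤ smin) (cs : List ℕ)
    (s : Idx Unit (c :: cs) → Option Bool) (f : (Idx Unit (c :: cs) → Bool) → Bool) :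
    Ag t (c :: cs) s f = ∑ ρ : Idx Unit cs → St c, wt (G := Idx Unit cs) t t' ξ smin s ρ *
      Ag t' cs (fun h => (ρ h).1) (fun z => f (XX (G := Idx Unit cs) s ρ z)) := by
  classical
  unfold Ag
  have h1 := stage (G := Idx Unit cs) (ξ := ξ) ht ht1 ht' hs s (fun z : Idx Unit cs × Fin c → Bool =>
    if f z = Tr (c :: cs) (val (I := Idx Unit cs × Fin c) s z) () then (1 : ℝ) else 0)
  refine Eq.trans ?_ (h1.trans ?_)
  · rfl
  · refine Finset.sum_congr rfl fun ρ _ => ?_
    by_cases hρ : wt (G := Idx Unit cs) t t' ξ smin s ρ = 0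
    · rw [hρ, zero_mul, zero_mul]
    · have h2 : ∀ z : Idx Unit cs → Bool,
          Tr (c :: cs) (val (I := Idx Unit cs × Fin c) s (XX s ρ z)) () =
            Tr (X := Unit) cs (val (fun h => (ρ h).1) z) () := by
        intro z
        show Tr cs (fun g => decide (∀ i : Fin c,
          val (I := Idx Unit cs × Fin c) s (XX s ρ z) (g, i) = false)) () = _
        congr 1
        funext g'
        exact val_stage (G := Idx Unit cs) s ρ hρ z g'
      simp only [h2]

theorem XX_dep {G : Type} {c : ℕ} (s : G × Fin c → Option Bool) (ρ : G → St c) (z z' : G → Bool)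
    (h : ∀ g, (ρ g).1 = none → z g = z' g) : XX s ρ z = XX s ρ z' := by
  funext gi
  unfold XX xx
  by_cases hg : (ρ gi.1).1 = none
  · rw [h _ hg]
  · simp [hg]

open Classical in
theorem QF1_dep {I : Type} (m : ℕ) (F : List Bool → (I → Bool) → Bool) (b : Bool) (y : List Bool)
    (z z' : I → Bool) (h : ∀ y', F y' z = F y' z') : QF m F 1 b y z = QF m F 1 b y z' := by
  cases b with
  | true =>
    have e1 : ∀ x, QF m F 1 true y x = decide (∃ w : List Bool, w.length ≤ m ∧
        F (pairBits w y) x = true) := fun _ => rfl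
    rw [e1, e1]
    simp only [h]
  | false =>
    have e1 : ∀ x, QF m F 1 false y x = decide (∀ w : List Bool, w.length ≤ m →
        F (pairBits w y) x = true) := fun _ => rfl
    rw [e1, e1]
    simp only [h]

theorem ind {n u D : ℕ} (hn : 5 ≤ n) (hu : 8 * u ≤ n) (hrD : 2 ^ (2 * u) ≤ D)
    (hD : 16 * D ≤ 2 ^ (4 * n)) :
    ∀ (k : ℕ) (cs : List ℕ), cs.length = k + 1 → ∀ (s : Idx Unit cs → Option Bool) (m ℓ : ℕ)
      (F : List Bool → (Idx Unit cs → Bool) → Bool),
      (∀ y : List Bool, ∀ z z', (∀ i, s i = none → z i = z' i) → F y z = F y z') →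
      (∀ y : List Bool, y.length ≤ ℓ + (k + 1) * (2 * m + 1) → DTr (2 ^ (2 * u)) (F y)) →
      ∀ y : List Bool, y.length ≤ ℓ →
      Ag (1 / 2 ^ (4 * n)) cs s (QF m F (k + 1) true y) ≤
        k * (2 ^ (ℓ + (k + 1) * (2 * m + 1) + 2) * (1 / 2) ^ (2 ^ (2 * u) + 1)) +
        (1 - 1 / 512) + 1 / 512 *
        Wt (1 / 2 ^ (4 * n)) (1 / 2 ^ (2 * n)) (8 * n * 2 ^ (4 * n)) (1 / 256) D 1 cs s := by
  classical
  set t : ℝ := 1 / 2 ^ (4 * n) with ht
  set ξ : ℝ := 1 / 2 ^ (2 * n) with hξ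
  set smin : ℕ := 8 * n * 2 ^ (4 * n) with hsmin
  set r : ℕ := 2 ^ (2 * u) with hr
  have ht0 : 0 < t := by positivity
  have ht2 : t ≤ 1 / 2 := by
    rw [ht]
    apply one_div_le_one_div_of_le (by norm_num)
    calc (2 : ℝ) = 2 ^ 1 := by norm_num
      _ ≤ 2 ^ (4 * n) := pow_le_pow_right₀ (by norm_num) (by omega)
  have ht1 : t < 1 := by linarith
  have hξ0 : 0 < ξ := by positivity
  have hξ1 : ξ ≤ 1 := by
    rw [hξ, div_le_one (by positivity)]
    exact one_le_pow₀ (by norm_num)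
  have hs1 : 1 ≤ smin := by
    rw [hsmin]
    have : 0 < 8 * n * 2 ^ (4 * n) := by positivity
    omega
  have hr1 : 1 ≤ r := Nat.one_le_two_pow
  have hDt : (D : ℝ) * t ≤ 1 / 2 := by
    rw [ht, mul_one_div, div_le_div_iff₀ (by positivity) (by norm_num)]
    have : (16 : ℝ) * D ≤ 2 ^ (4 * n) := by exact_mod_cast hD
    have h0 : (0 : ℝ) ≤ D := Nat.cast_nonneg _
    linarith
  obtain ⟨hl1, hl2, hl3⟩ := lam_bound hn hu
  have hlam4 : (1 : ℝ) / 2 ^ (6 * n) ≤ 1 / 4 := by
    apply one_div_le_one_div_of_le (by norm_num)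
    calc (4 : ℝ) = 2 ^ 2 := by norm_num
      _ ≤ 2 ^ (6 * n) := pow_le_pow_right₀ (by norm_num) (by omega)
  -- the condition for the nonnegativity of the weights
  have hcond : (1 - ξ) * (1 - t) ^ smin / t + ξ * (1 - t) ^ smin ≤ 1 := by
    have h1 : (1 - t) ^ smin / t ≤ 1 / 4 := hl1.trans hlam4
    have h2 : (1 - t) ^ smin ≤ 1 / 4 := by
      have h3 : (1 - t) ^ smin ≤ 1 / 4 * t := (div_le_iff₀ ht0).1 h1
      nlinarith
    have h0 : 0 ≤ (1 - t) ^ smin := pow_nonneg (by linarith) _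
    have h5 : 0 ≤ (1 - t) ^ smin / t := by positivity
    have h3 : (1 - ξ) * (1 - t) ^ smin / t ≤ (1 - t) ^ smin / t := by
      rw [mul_div_assoc]
      nlinarith
    have h4 : ξ * (1 - t) ^ smin ≤ (1 - t) ^ smin := by nlinarith
    linarith
  intro k
  induction k with
  | zero =>
    intro cs hcs s m ℓ F hdep hF y hy
    match cs, hcs with
    | [c], _ =>
      have h3 : Ag t [c] s (QF m F (0 + 1) true y) ≤ 1 := Ag_le_one ht0.le ht1.le _ _ _
      rw [Wt_one]
      split_ifs with hg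
      · push_cast
        linarith
      · push Not at hg
        have hGood : Good t (1 / 256) D (fun i => s ((), i)) := by
          by_contra hcon
          have : ngood (X := Unit) (c := c) t (1 / 256) D s = 0 := by
            unfold ngood
            rw [Finset.card_eq_zero, Finset.filter_eq_empty_iff]
            rintro ⟨⟩ -
            exact hcon
          omega
        have h1 := base (c := c) (r := r) (D := D) (t := t) ht0.le ht1.le hrD hDt s hGood
          (QF m F 1 true y) (cert_QF1 F y true (fun w hw => hF _ (by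
            rw [W_length_pairBits]
            omega))) (fun z z' hz => QF1_dep m F true y z z' (fun y' => hdep y' z z' hz))
        have h2 : Ag t [c] s (QF m F (0 + 1) true y) ≤ 1 - 1 / 512 := by
          refine le_trans (le_of_eq ?_) h1
          rfl
        push_cast
        linarith
  | succ k ih =>
    intro cs hcs s m ℓ F hdep hF y hy
    match cs, hcs with
    | c :: cs, hcs =>
      have hlen : cs.length = k + 1 := by simpa using hcs
      have hne : cs ≠ [] := by
        intro h; rw [h] at hlen; simp at hlen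
      rw [Wt_two _ _ _ _ _ _ _ _ hne]
      rw [Ag_stage (t' := t) (ξ := ξ) (smin := smin) ht0 ht1 ht0 hs1 cs s]
      have hℓ : ℓ + (k + 1 + 1) * (2 * m + 1) = ℓ + (k + 1) * (2 * m + 1) + (2 * m + 1) := by ring
      have hsw := stage_switch (G := Idx Unit cs) (c := c) (smin := smin) (r := r) (t := t)
        (t' := t) (ξ := ξ) (lam := 1 / 2 ^ (6 * n)) ht0 ht2 ht0 ht1.le hξ0 hξ1 hs1 hl1 hlam4 hr1
        hl3 s m (ℓ + (k + 1) * (2 * m + 1)) F (fun y' hy' => hF y' (by rw [hℓ]; exact hy'))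
      set bad : (Idx Unit cs → St c) → Prop := fun ρ => ¬ ∀ y : List Bool,
        y.length ≤ ℓ + (k + 1) * (2 * m + 1) → ∀ b,
        DTr r (fun z : Idx Unit cs → Bool => QF m F 1 b y (XX s ρ z)) with hbad
      have hnn : ∀ ρ : Idx Unit cs → St c, 0 ≤ wt (G := Idx Unit cs) t t ξ smin s ρ := fun ρ =>
        wt_nonneg ht0 ht1 ht0 hξ0.le hξ1 hs1 hcond s ρ
      set E₁ : ℝ := k * (2 ^ (ℓ + (k + 1) * (2 * m + 1) + 2) * (1 / 2) ^ (r + 1)) with hE₁
      have hE₁0 : 0 ≤ E₁ := by positivity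
      have hterm : ∀ ρ : Idx Unit cs → St c, wt (G := Idx Unit cs) t t ξ smin s ρ *
          Ag t cs (fun h => (ρ h).1)
            (fun z => QF m F (k + 1 + 1) true y (XX (G := Idx Unit cs) s ρ z))
          ≤ wt (G := Idx Unit cs) t t ξ smin s ρ * (if bad ρ then (1 : ℝ) else 0) +
            wt (G := Idx Unit cs) t t ξ smin s ρ * (E₁ + (1 - 1 / 512)) +
            1 / 512 * (wt (G := Idx Unit cs) t t ξ smin s ρ *
              Wt t ξ smin (1 / 256) D 1 cs (fun h => (ρ h).1)) := by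
        intro ρ
        rw [show 1 / 512 * (wt (G := Idx Unit cs) t t ξ smin s ρ *
              Wt t ξ smin (1 / 256) D 1 cs (fun h => (ρ h).1)) =
              wt (G := Idx Unit cs) t t ξ smin s ρ * (1 / 512 *
              Wt t ξ smin (1 / 256) D 1 cs (fun h => (ρ h).1)) by ring]
        rw [← mul_add, ← mul_add]
        apply mul_le_mul_of_nonneg_left _ (hnn ρ)
        by_cases hb : bad ρ
        · rw [if_pos hb]
          have h3 := Ag_le_one ht0.le ht1.le cs (fun h => (ρ h).1)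
            (fun z => QF m F (k + 1 + 1) true y (XX (G := Idx Unit cs) s ρ z))
          have h4 : 0 ≤ Wt t ξ smin (1 / 256) D 1 cs (fun h : Idx Unit cs => (ρ h).1) :=
            Wt_nonneg ht0 ht1 hξ0.le hξ1 hs1 hcond cs _
          linarith
        · rw [if_neg hb, zero_add]
          have hgood : ∀ y : List Bool, y.length ≤ ℓ + (k + 1) * (2 * m + 1) → ∀ b,
            DTr r (fun z : Idx Unit cs → Bool => QF m F 1 b y (XX s ρ z)) := not_not.1 hb
          have h5 := ih cs hlen (fun h => (ρ h).1) m ℓ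
            (fun y' z => QF m F 1 (bot true (k + 1)) y' (XX (G := Idx Unit cs) s ρ z))
            (fun y' z z' hz => by
              show QF m F 1 (bot true (k + 1)) y' (XX s ρ z) =
                QF m F 1 (bot true (k + 1)) y' (XX s ρ z')
              rw [XX_dep s ρ z z' hz])
            (fun y' hy' => hgood y' hy' _) y hy
          refine le_trans (le_of_eq ?_) h5
          congr 1
          funext z
          rw [QF_peel, QF_comp m (fun y' => QF m F 1 (bot true (k + 1)) y')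
            (XX (G := Idx Unit cs) s ρ)]
      refine (Finset.sum_le_sum fun ρ _ => hterm ρ).trans ?_
      rw [Finset.sum_add_distrib, Finset.sum_add_distrib, ← Finset.sum_mul, ← Finset.mul_sum,
        wt_sum ht0 ht1 ht0 hs1 s, one_mul]
      have h6 : 2 ^ (ℓ + (k + 1) * (2 * m + 1) + 2) * (16 * (r : ℝ) * (1 / 2 ^ (6 * n))) ^ (r + 1) ≤
          2 ^ (ℓ + (k + 1 + 1) * (2 * m + 1) + 2) * (1 / 2) ^ (r + 1) := by
        apply mul_le_mul
        · apply pow_le_pow_right₀ (by norm_num)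
          rw [hℓ]; omega
        · exact pow_le_pow_left₀ (by positivity) hl2 _
        · positivity
        · positivity
      have h7 : E₁ ≤ k * (2 ^ (ℓ + (k + 1 + 1) * (2 * m + 1) + 2) * (1 / 2) ^ (r + 1)) := by
        rw [hE₁]
        apply mul_le_mul_of_nonneg_left _ (by positivity)
        apply mul_le_mul_of_nonneg_right _ (by positivity)
        apply pow_le_pow_right₀ (by norm_num)
        rw [hℓ]; omega
      have h8 := hsw.trans h6
      have h8' : ∑ ρ : Idx Unit cs → St c, wt (G := Idx Unit cs) t t ξ smin s ρ *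
          (if bad ρ then (1 : ℝ) else 0) ≤
          2 ^ (ℓ + (k + 1 + 1) * (2 * m + 1) + 2) * (1 / 2) ^ (r + 1) := by
        refine le_trans (le_of_eq (Finset.sum_congr rfl fun ρ _ => ?_)) h8
        exact congrArg (fun q => wt (G := Idx Unit cs) t t ξ smin s ρ * q)
          (if_congr Iff.rfl rfl rfl)
      push_cast
      have h9 : ((k : ℝ) + 1) * (2 ^ (ℓ + (k + 1 + 1) * (2 * m + 1) + 2) * (1 / 2) ^ (r + 1)) =
        k * (2 ^ (ℓ + (k + 1 + 1) * (2 * m + 1) + 2) * (1 / 2) ^ (r + 1)) +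
          2 ^ (ℓ + (k + 1 + 1) * (2 * m + 1) + 2) * (1 / 2) ^ (r + 1) := by ring
      rw [h9]
      linarith

/-- all levels, and the level of the random bits -/
theorem leaf {n u D : ℕ} (hn : 5 ≤ n) (hu : 8 * u ≤ n) (hrD : 2 ^ (2 * u) ≤ D)
    (hD : 16 * D ≤ 2 ^ (4 * n)) (k : ℕ) (cs : List ℕ)
    (hcs : cs.length = k + 1) (m ℓ : ℕ) (F : List Bool → (Idx Unit (8 * n :: cs) → Bool) → Bool)
    (hF : ∀ y : List Bool, y.length ≤ ℓ + (k + 1) * (2 * m + 1) → DTr (2 ^ (2 * u)) (F y))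
    (y : List Bool) (hy : y.length ≤ ℓ) :
    Ag (1 / 2) (8 * n :: cs) (fun _ => none) (QF m F (k + 1) true y) ≤
      k * (2 ^ (ℓ + (k + 1) * (2 * m + 1) + 2) * (1 / 2) ^ (2 ^ (2 * u) + 1)) +
      (1 - 1 / 512) + 1 / 512 *
      Ex (nxt (1 / 2) (1 / 2 ^ (4 * n)) 0 (8 * n) (8 * n) law0)
        (Wt (X := Unit) (1 / 2 ^ (4 * n)) (1 / 2 ^ (2 * n)) (8 * n * 2 ^ (4 * n)) (1 / 256) D 1
          cs) := by
  classical
  set t : ℝ := 1 / 2 ^ (4 * n) with ht
  have ht0 : 0 < t := by positivity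
  have hpow : (1 - 1 / 2 : ℝ) ^ (8 * n) / t ≤ 1 := by
    rw [ht, div_le_one (by positivity)]
    rw [show (1 - 1 / 2 : ℝ) = 1 / 2 by norm_num, one_div_pow]
    apply one_div_le_one_div_of_le (by positivity)
    exact pow_le_pow_right₀ (by norm_num) (by omega)
  have hs1 : 1 ≤ 8 * n := by omega
  have hcond : (1 - 0) * (1 - 1 / 2 : ℝ) ^ (8 * n) / t + 0 * (1 - 1 / 2 : ℝ) ^ (8 * n) ≤ 1 := by
    rw [zero_mul, add_zero, sub_zero, one_mul]
    exact hpow
  set s0 : Idx Unit (8 * n :: cs) → Option Bool := fun _ => none with hs0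
  rw [Ag_stage (t := 1 / 2) (t' := t) (ξ := 0) (smin := 8 * n) (by norm_num) (by norm_num) ht0 hs1
    cs s0]
  set E : ℝ := k * (2 ^ (ℓ + (k + 1) * (2 * m + 1) + 2) * (1 / 2) ^ (2 ^ (2 * u) + 1)) +
      (1 - 1 / 512) with hE
  set W := Wt (X := Unit) t (1 / 2 ^ (2 * n)) (8 * n * 2 ^ (4 * n)) (1 / 256) D 1 cs with hW
  have hterm : ∀ ρ : Idx Unit cs → St (8 * n),
      wt (G := Idx Unit cs) (1 / 2) t 0 (8 * n) s0 ρ *
        Ag t cs (fun h => (ρ h).1)
          (fun z => QF m F (k + 1) true y (XX (G := Idx Unit cs) s0 ρ z)) ≤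
      wt (G := Idx Unit cs) (1 / 2) t 0 (8 * n) s0 ρ * E +
        1 / 512 * (wt (G := Idx Unit cs) (1 / 2) t 0 (8 * n) s0 ρ * W (fun h => (ρ h).1)) := by
    intro ρ
    rw [show 1 / 512 * (wt (G := Idx Unit cs) (1 / 2) t 0 (8 * n) s0 ρ * W (fun h => (ρ h).1)) =
      wt (G := Idx Unit cs) (1 / 2) t 0 (8 * n) s0 ρ * (1 / 512 * W (fun h => (ρ h).1)) by ring]
    rw [← mul_add]
    apply mul_le_mul_of_nonneg_left _
      (wt_nonneg (by norm_num) (by norm_num) ht0 le_rfl zero_le_one hs1 hcond s0 ρ)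
    have h5 := ind hn hu hrD hD k cs hcs (fun h => (ρ h).1) m ℓ
      (fun y' z => F y' (XX (G := Idx Unit cs) s0 ρ z))
      (fun y' z z' hz => by
        show F y' (XX s0 ρ z) = F y' (XX s0 ρ z')
        rw [XX_dep s0 ρ z z' hz])
      (fun y' hy' => DTr_XX (G := Idx Unit cs) s0 ρ (hF y' hy')) y hy
    refine le_trans (le_of_eq ?_) h5
    congr 1
    funext z
    rw [QF_comp m F (XX (G := Idx Unit cs) s0 ρ)]
  refine (Finset.sum_le_sum fun ρ _ => hterm ρ).trans ?_
  rw [Finset.sum_add_distrib, ← Finset.sum_mul, ← Finset.mul_sum,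
    wt_sum (by norm_num) (by norm_num) ht0 hs1 s0, one_mul]
  have h8 := law_stage (G := Idx Unit cs) (c := 8 * n) (smin := 8 * n) (t := 1 / 2) (t' := t)
    (ξ := 0) law0 W
  rw [Ex_law0] at h8
  rw [← h8]
  exact le_of_eq rfl

end Pool.Agent.W554.RO
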